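import Pool.Agent.Helper86.EN.Goals2
import Mathlib.Analysis.Calculus.BumpFunction.Convolution
import Mathlib.Analysis.Calculus.ContDiff.Convolution

/-! Packet EN2-DD: the smooth distance. -/

set_option autoImplicit false

open MeasureTheory Set Metric
open scoped ContDiff Convolution

namespace Pool.Agent.Helper52.EN2.DD

theorem t : Pool.Agent.Helper86.EN.S_DD := by
  intro A δ hA hne hδ
  obtain ⟨d₀, hd₀⟩ : ∃ d₀ : ℝ → ℝ, d₀ = fun x => max (infDist x A - δ) 0 := ⟨_, rfl⟩
  have hlip : ∀ x y, |d₀ x - d₀ y| ≤ |x - y| := by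
    intro x y
    rw [hd₀]
    refine (abs_max_sub_max_le_abs _ _ _).trans ?_
    have h1 : infDist x A - δ - (infDist y A - δ) = infDist x A - infDist y A := by ring
    rw [h1]
    have h2 := (lipschitz_infDist_pt A).dist_le_mul x y
    simpa [Real.dist_eq] using h2
  have hcont : Continuous d₀ := by
    rw [hd₀]
    exact ((continuous_infDist_pt A).sub continuous_const).max continuous_const
  have hnn : ∀ x, 0 ≤ d₀ x := fun x => by rw [hd₀]; exact le_max_right _ _
  have hδ4 : 0 < δ / 4 := by positivity
  have hδ42 : δ / 4 < δ / 2 := by linarith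
  let φ : ContDiffBump (0 : ℝ) := ⟨δ / 4, δ / 2, hδ4, hδ42⟩
  have hφr : φ.rOut = δ / 2 := rfl
  obtain ⟨w, hw⟩ : ∃ w : ℝ → ℝ, w = φ.normed volume := ⟨_, rfl⟩
  have hwc : Continuous w := by rw [hw]; exact φ.continuous_normed
  have hws : HasCompactSupport w := by rw [hw]; exact φ.hasCompactSupport_normed
  have hw0 : ∀ t, 0 ≤ w t := by rw [hw]; exact fun t => φ.nonneg_normed t
  have hwi : ∫ t, w t = 1 := by rw [hw]; exact φ.integral_normed
  have hwz : ∀ t, δ / 2 ≤ |t| → w t = 0 := by
    intro t ht
    by_contra h
    have h1 : t ∈ Function.support (φ.normed volume) := by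
      rw [← hw]; exact h
    rw [φ.support_normed_eq, hφr, mem_ball_zero_iff, Real.norm_eq_abs] at h1
    linarith
  have hint : ∀ x, Integrable (fun t => w t * d₀ (x - t)) := by
    intro x
    apply Continuous.integrable_of_hasCompactSupport
    · exact hwc.mul (hcont.comp (continuous_const.sub continuous_id))
    · exact hws.mul_right
  obtain ⟨d, hd⟩ : ∃ d : ℝ → ℝ, d = (φ.normed volume ⋆[ContinuousLinearMap.lsmul ℝ ℝ, volume] d₀) :=
    ⟨_, rfl⟩
  have hdx : ∀ x, d x = ∫ t, w t * d₀ (x - t) := by
    intro x
    rw [hd, hw]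
    rfl
  have hdl : ∀ x y, |d x - d y| ≤ |x - y| := by
    intro x y
    rw [hdx, hdx, ← integral_sub (hint x) (hint y)]
    calc |∫ t, (w t * d₀ (x - t) - w t * d₀ (y - t))| ≤
          ∫ t, |w t * d₀ (x - t) - w t * d₀ (y - t)| := abs_integral_le_integral_abs
      _ ≤ ∫ t, w t * |x - y| := by
          apply integral_mono_of_nonneg
          · exact Filter.Eventually.of_forall fun t => abs_nonneg _
          · exact (hwc.integrable_of_hasCompactSupport hws).mul_const _
          · refine Filter.Eventually.of_forall fun t => ?_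
            show |w t * d₀ (x - t) - w t * d₀ (y - t)| ≤ w t * |x - y|
            rw [← mul_sub, abs_mul, abs_of_nonneg (hw0 t)]
            apply mul_le_mul_of_nonneg_left _ (hw0 t)
            have := hlip (x - t) (y - t)
            simpa using this
      _ = |x - y| := by rw [integral_mul_const, hwi, one_mul]
  refine ⟨d, ?_, ?_, ?_, ?_, ?_⟩
  · rw [hd]
    exact (φ.hasCompactSupport_normed).contDiff_convolution_left _ φ.contDiff_normed
      hcont.locallyIntegrable
  · intro x
    rw [hdx]
    exact integral_nonneg fun t => mul_nonneg (hw0 t) (hnn _)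
  · intro x hx
    rw [hdx]
    have h1 : ∀ t, w t * d₀ (x - t) = 0 := by
      intro t
      rcases le_or_gt (δ / 2) |t| with h | h
      · rw [hwz t h, zero_mul]
      · have h2 : d₀ (x - t) = 0 := by
          rw [hd₀]
          apply max_eq_right
          have h3 := infDist_le_dist_of_mem (x := x - t) hx
          rw [Real.dist_eq] at h3
          have h4 : |x - t - x| = |t| := by
            rw [show x - t - x = -t by ring, abs_neg]
          rw [h4] at h3
          linarith
        rw [h2, mul_zero]
    simp [h1]
  · intro x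
    have h1 : LipschitzWith 1 d := LipschitzWith.of_dist_le_mul fun x y => by
      rw [Real.dist_eq, Real.dist_eq]
      simpa using hdl x y
    have h2 := norm_deriv_le_of_lipschitz (x₀ := x) h1
    simpa using h2
  · intro x
    have h1 : dist (d x) (d₀ x) ≤ δ / 2 := by
      rw [hd]
      apply ContDiffBump.dist_normed_convolution_le hcont.aestronglyMeasurable
      intro y hy
      rw [Real.dist_eq]
      refine (hlip y x).trans ?_
      rw [mem_ball, Real.dist_eq, hφr] at hy
      linarith
    rw [Real.dist_eq] at h1
    have h2 := (abs_le.1 h1).1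
    have h3 : infDist x A - δ ≤ d₀ x := by rw [hd₀]; exact le_max_left _ _
    linarith

end Pool.Agent.Helper52.EN2.DD
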